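import Pool.Agent.TH707.DP.NC1

/-!
# How many strings of a random oracle have to be changed to put `P` into logarithmic depth?

Relative to an oracle the circuits may have gates for the oracle; a gate with `j` inputs contributes
`⌊log₂ j⌋ + 1` to the depth (and `j + 1` to the size). An adversary who knows the random oracle `O`
changes, for all large `n`, at most `g n` of the strings of length at most `n`; the result is the
oracle `A` (`Close g O A`).

* If for every `ε > 0` there are infinitely many `n` with `g n ≤ 2 ^ (n ^ ε)`, then for almost every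
  `O`, relative to all these `A`, there is a language in `P` whose circuit depth is not `O(log n)`;
  moreover, for every `b` there is a language in `P` which has no circuits of polynomial size and of
  depth at most `n ^ b`.
* Otherwise every oracle `O` can be changed such that, relative to `A`, all languages in `PSPACE`
  have circuits of depth `O(log n)`.
-/

set_option autoImplicit false

namespace Pool.Agent.Results.MP_027d00_lc.ChangedStrings

open Pool.Agent.NPC Pool.Agent.H620R2.Gauge Pool.Agent.TH707.DP
open Pool.Agent.H622R2.Ckt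
open Pool.Agent.W900.CH (Close)
open Pool.Agent.H628R3.RO (randomOracle)
open MeasureTheory Filter

theorem result (g : ℕ → ℝ) :
    ((∀ ε : ℝ, 0 < ε → ∃ᶠ n : ℕ in atTop, g n ≤ 2 ^ ((n : ℝ) ^ ε)) →
      ∀ᵐ O ∂randomOracle, ∀ A : Oracle, Close g O A →
        (∃ L, IsP A L ∧ ∀ c : ℝ, ∃ᶠ n : ℕ in atTop, ∀ D : Circuit, Decides A L n D →
          c * Real.logb 2 n < depth D) ∧
        ∀ b : ℕ, ∃ L, IsP A L ∧ ∀ c : ℕ, ∃ᶠ n : ℕ in atTop, ∀ D : Circuit, Decides A L n D →
          D.size ≤ n ^ c → n ^ b < depth D) ∧
    ((¬ ∀ ε : ℝ, 0 < ε → ∃ᶠ n : ℕ in atTop, g n ≤ 2 ^ ((n : ℝ) ^ ε)) →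
      ∀ O : Oracle, ∃ A : Oracle, Close g O A ∧ ∀ L, IsPSPACE A L → InNC1 A L) := by
  refine ⟨fun hg => ?_, (changedP g).2⟩
  filter_upwards [(changedP g).1 hg] with O hO A hA
  have h := hO A hA
  constructor
  · by_contra hc
    refine h (nc1_polyDepth fun L hL => ?_)
    by_contra hn
    refine hc ⟨L, hL, fun c => ?_⟩
    intro he
    refine hn ⟨c, ?_⟩
    filter_upwards [he] with n hn'
    push Not at hn'
    obtain ⟨D, h1, h2⟩ := hn'
    exact ⟨D, h2, h1⟩
  · intro b
    by_contra hc
    refine h ⟨b, fun L hL => ?_⟩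
    by_contra hn
    refine hc ⟨L, hL, fun c => ?_⟩
    intro he
    refine hn ⟨c, ?_⟩
    filter_upwards [he] with n hn'
    push Not at hn'
    obtain ⟨D, h1, h2, h3⟩ := hn'
    exact ⟨D, h2, h3, h1⟩

end Pool.Agent.Results.MP_027d00_lc.ChangedStrings
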