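import Pool.Agent.TH707.EO.CircMain

/-!
# How many strings of an oracle have to be changed to make `P` need deep circuits?

Relative to an oracle the circuits may have gates for the oracle; a gate with `j` inputs contributes
`⌊log₂ j⌋ + 1` to the depth. An adversary who knows the oracle `O` changes, for all large `n`, at
most `g n` of the strings of length at most `n`; the result is the oracle `A` (`Close g O A`).

* If `g` is not bounded by a polynomial, then every oracle `O` can be changed such that, relative to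
  `A`, some language in `P` needs circuits of depth more than `C log n` for every `C`, and for every
  `b` some language in `P` has no circuits of polynomial size and depth at most `n ^ b`.
* Otherwise there is an oracle `O` such that, relative to all these `A`, all languages in `PSPACE`
  have circuits of logarithmic depth.
-/

set_option autoImplicit false

namespace Pool.Agent.Results.MP_027d00_lc.ChangesOfEveryOracle

open Pool.Agent.NPC Pool.Agent.H620R2.Gauge Pool.Agent.TH707.DP Pool.Agent.TH707.EO
open Pool.Agent.H622R2.Ckt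
open Pool.Agent.W900.CH (Close)
open Filter

theorem result (g : ℕ → ℝ) :
    ((¬ ∃ c : ℕ, ∀ᶠ n : ℕ in atTop, ∃ m ≥ n, g m ≤ (n : ℝ) ^ c) →
      ∀ O : Oracle, ∃ A : Oracle, Close g O A ∧
        (∃ L, IsP A L ∧ ∀ c : ℝ, ∃ᶠ n : ℕ in atTop, ∀ D : Circuit, Decides A L n D →
          c * Real.logb 2 n < depth D) ∧
        ∀ b : ℕ, ∃ L, IsP A L ∧ ∀ c : ℕ, ∃ᶠ n : ℕ in atTop, ∀ D : Circuit, Decides A L n D →
          D.size ≤ n ^ c → n ^ b < depth D) ∧
    ((∃ c : ℕ, ∀ᶠ n : ℕ in atTop, ∃ m ≥ n, g m ≤ (n : ℝ) ^ c) →
      ∃ O : Oracle, ∀ A : Oracle, Close g O A → ∀ L, IsPSPACE A L → InNC1 A L) := by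
  refine ⟨fun hg O => ?_, few_D⟩
  obtain ⟨A, hA, h⟩ := many_D hg O
  refine ⟨A, hA, ?_, ?_⟩
  · by_contra hc
    refine h (nc1_polyDepth fun L hL => ?_)
    by_contra hn
    refine hc ⟨L, hL, fun c => ?_⟩
    intro he
    refine hn ⟨c, ?_⟩
    filter_upwards [he] with n hn'
    push Not at hn'
    obtain ⟨D, h1, h2⟩ := hn'
    exact ⟨D, h2, h1⟩
  · intro b
    by_contra hc
    refine h ⟨b, fun L hL => ?_⟩
    by_contra hn
    refine hc ⟨L, hL, fun c => ?_⟩
    intro he
    refine hn ⟨c, ?_⟩
    filter_upwards [he] with n hn'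
    push Not at hn'
    obtain ⟨D, h1, h2, h3⟩ := hn'
    exact ⟨D, h2, h3, h1⟩

end Pool.Agent.Results.MP_027d00_lc.ChangesOfEveryOracle
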