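import Pool.Agent.TH707.DP.NC1
import Pool.Agent.H620R2.Gauge.Upper

/-!
# The size of the set of the oracles relative to which `P` has logarithmic depth

Relative to an oracle the circuits may have gates for the oracle; a gate with `j` inputs contributes
`⌊log₂ j⌋ + 1` to the depth (and `j + 1` to the size). The set of the oracles relative to which all
languages in `P` have circuits of depth `O(log n)` is a null set for the gauge `f` if and only if for
every `ε > 0` there are infinitely many `N` with `f N ≤ 2 ^ ((log N) ^ ε)`. The same holds for all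
sets of oracles which contain those relative to which all languages in `PSPACE` have circuits of
depth `O(log n)`, and in which, for some `b`, all languages in `P` have circuits of polynomial size
and of depth at most `n ^ b`.
-/

set_option autoImplicit false

namespace Pool.Agent.Results.MP_027d00_lc.GaugeThreshold

open Pool.Agent.NPC Pool.Agent.H620R2.Gauge Pool.Agent.TH707.DP
open Filter

theorem result (f : ℕ → ℝ) :
    (Null f {A : Oracle | ∀ L, IsP A L → InNC1 A L} ↔
      ∀ ε : ℝ, 0 < ε → ∃ᶠ N : ℕ in atTop, f N ≤ 2 ^ ((Real.logb 2 N) ^ ε)) ∧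
    ∀ S : Set Oracle, (∀ A : Oracle, (∀ L, IsPSPACE A L → InNC1 A L) → A ∈ S) →
      (∀ A ∈ S, PolyDepth A) →
      (Null f S ↔
        ∀ ε : ℝ, 0 < ε → ∃ᶠ N : ℕ in atTop, f N ≤ 2 ^ ((Real.logb 2 N) ^ ε)) :=
  ⟨gaugeP f _ (fun _ h L hL => h L hL.isPSPACE) fun _ h => nc1_polyDepth h,
    fun S h1 h2 => gaugeP f S h1 h2⟩

end Pool.Agent.Results.MP_027d00_lc.GaugeThreshold
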