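import Mathlib
import Pool.Agent.TH457.Ary.XorAddr

/-!
# Depth of random circuits with large bottom gates for an explicit function

The input of the function `access m ℓ` consists of `m` addresses with `ℓ` bits and of a storage with
`2 ^ ℓ` bits; the value is the bit of the storage at the sum (modulo two) of the addresses. We
consider random formulas whose gates are arbitrary functions of two bits and whose bottom gates are
arbitrary functions of `w` input bits, with error probability at most `1 / 3`.

* The expected number of bottom gates is at least `m 2 ^ ℓ / (100 w ^ 2)`.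
* If the depth above the bottom gates is at most `d` (the unfolding of a circuit of depth `d`), then
  `2 ^ d ≥ m 2 ^ ℓ / (100 w ^ 2)`. For `m = 2 ^ ℓ` there are `n = (ℓ + 1) 2 ^ ℓ` input bits, and we get
  `d ≥ 2 log₂ n - 2 log₂ log₂ n - 2 log₂ w - 7`.
* Random branching programs whose nodes test arbitrary functions of `w` input bits have at least
  `m 2 ^ ℓ / (150 ℓ w ^ 2)` nodes, if `m ≤ 2 ^ ℓ`.

Proof. The bits of each address form a block which can ask for each bit of the storage. If `r` bottom
gates see the block, then only `2 (16 · 2 ^ (w - 1)) ^ r` functions of it arise when the other bits are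
fixed, so `r` is at least `2 ^ ℓ / (100 w)` on average; and each bottom gate sees at most `w` blocks.
-/

set_option autoImplicit false

namespace Pool.Agent.Results.MP_027d00_lc.ManyBitGates

open Pool.Agent.TH697.Form (IsProb)
open Pool.Agent.TH697.Row (ApproximatesOn)
open Pool.Agent.TH457.Ary Pool.Agent.TH457.Ary.XorAddr

theorem result : ∀ m ℓ w : ℕ, 10 ≤ ℓ → 1 ≤ w →
    ∀ (Ω : Type) [Fintype Ω] (μ : Ω → ℝ), IsProb μ →
      (∀ F : Ω → Fml (Pos m ℓ) (fun _ => Bool) w 2,
        ApproximatesOn μ (fun ω => (F ω).eval) (fun _ => True) (access m ℓ) →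
        (m : ℝ) * 2 ^ ℓ ≤ 100 * w ^ 2 * expSize μ F ∧
        ∀ d, (∀ ω, depth (F ω) ≤ d) → (m : ℝ) * 2 ^ ℓ ≤ 100 * w ^ 2 * 2 ^ d) ∧
      (∀ (s : ℕ) (B : Ω → Program (Pos m ℓ) (fun _ => Bool) w 2 s), m ≤ 2 ^ ℓ →
        ApproximatesOn μ (fun ω => (B ω).eval) (fun _ => True) (access m ℓ) →
        (m : ℝ) * 2 ^ ℓ ≤ 150 * ℓ * w ^ 2 * s) :=
  fun _ _ _ hℓ hw _ _ μ hμ =>
    ⟨fun F hF => ⟨formula_bound (by omega) hw μ hμ F hF,
      fun d hd => depth_bound (by omega) hw μ hμ F hF d hd⟩,
      fun s B hm hB => program_bound hℓ hm hw μ hμ s B hB⟩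

end Pool.Agent.Results.MP_027d00_lc.ManyBitGates
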